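import Mathlib

/-! Linear algebra lemmas for Hankel determinants of the binary digit sum. -/

namespace Pool.Agent.V11309.Hankel

open Matrix Polynomial

variable {R : Type*} [CommRing R]
variable {ι κ : Type*} [Fintype ι] [DecidableEq ι] [Fintype κ] [DecidableEq κ]

/-- The all-ones matrix. -/
def J (ι κ : Type*) (R : Type*) [One R] : Matrix ι κ R := Matrix.of fun _ _ => 1

@[simp] lemma J_apply {ι κ R : Type*} [One R] (i : ι) (j : κ) : J ι κ R i j = 1 := rfl

/-- `beta A = det (A + J) - det A`, the sum of the entries of the adjugate. -/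
def beta (A : Matrix ι ι R) : R := (A + J ι ι R).det - A.det

lemma det_add_smul_J_aux (A : Matrix ι ι R) :
    ∃ c : R, ∀ x : R, (A + x • J ι ι R).det = A.det + x * c := by
  let M : R → Matrix (ι ⊕ Unit) (ι ⊕ Unit) R := fun x =>
    fromBlocks A (J ι Unit R) (-x • J Unit ι R) 1
  have h1 : ∀ x, (M x).det = (A + x • J ι ι R).det := by
    intro x
    simp only [M]
    rw [det_fromBlocks_one₂₂]
    congr 1
    ext i j
    simp [Matrix.mul_apply]
  have h2 : ∀ x, M x = (M 0).updateRow (Sum.inr ()) ((Sum.elim (fun _ => 0) (fun _ => 1)) +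
      x • (Sum.elim (fun _ => -1) (fun _ => 0) : ι ⊕ Unit → R)) := by
    intro x
    ext i j
    rcases i with i | i <;> rcases j with j | j <;> simp [M, Matrix.updateRow_apply]
  refine ⟨((M 0).updateRow (Sum.inr ()) (Sum.elim (fun _ => -1) (fun _ => 0) : ι ⊕ Unit → R)).det,
    fun x => ?_⟩
  have h3 : ∀ x, (M x).det = ((M 0).updateRow (Sum.inr ())
      (Sum.elim (fun _ => 0) (fun _ => 1))).det + x *
      ((M 0).updateRow (Sum.inr ()) (Sum.elim (fun _ => -1) (fun _ => 0) : ι ⊕ Unit → R)).det := by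
    intro x
    rw [h2 x, det_updateRow_add, det_updateRow_smul]
  have h4 : (M 0).det = A.det := by rw [h1]; simp
  rw [← h1, h3 x, ← h4, h3 0]
  ring

/-- `det (A + x J)` is affine in `x`. -/
lemma det_add_smul_J (A : Matrix ι ι R) (x : R) :
    (A + x • J ι ι R).det = A.det + x * beta A := by
  obtain ⟨c, hc⟩ := det_add_smul_J_aux A
  have h1 := hc 1
  rw [one_smul, one_mul] at h1
  rw [hc x, beta, h1]; ring

lemma beta_add_smul_J (A : Matrix ι ι R) (x : R) : beta (A + x • J ι ι R) = beta A := by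
  have h1 := det_add_smul_J A (x + 1)
  have h2 := det_add_smul_J A x
  have h3 : A + x • J ι ι R + J ι ι R = A + (x + 1) • J ι ι R := by
    rw [add_smul, one_smul, add_assoc]
  rw [beta, h3, h1, h2]; ring

lemma beta_mul_of_unit (A : Matrix ι ι R) [Invertible A] :
    beta A = A.det * ∑ i, ∑ j, (⅟A) i j := by
  have h : A + J ι ι R = A * (1 + (⅟A * J ι Unit R) * J Unit ι R) := by
    rw [Matrix.mul_add, Matrix.mul_one, Matrix.mul_assoc, ← Matrix.mul_assoc A, mul_invOf_self,
      Matrix.one_mul]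
    congr 1
    ext i j
    simp [Matrix.mul_apply]
  rw [beta, h, det_mul, det_one_add_mul_comm]
  have h2 : (1 + J Unit ι R * (⅟A * J ι Unit R)).det = 1 + ∑ i, ∑ j, (⅟A) i j := by
    rw [det_unique]
    simp [Matrix.mul_apply]
  rw [h2]; ring

lemma det_fromBlocks_J_of_unit (A : Matrix ι ι R) (B : Matrix κ κ R) [Invertible A] :
    (fromBlocks A (J ι κ R) (J κ ι R) B).det = A.det * B.det - beta A * beta B := by
  have h1 : J κ ι R * ⅟A * J ι κ R = (∑ i, ∑ j, (⅟A) i j) • J κ κ R := by
    ext i j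
    simp only [Matrix.mul_apply, J_apply, one_mul, mul_one, Matrix.smul_apply, smul_eq_mul]
    rw [Finset.sum_comm]
  rw [det_fromBlocks₁₁, h1, sub_eq_add_neg, ← neg_smul, det_add_smul_J, beta_mul_of_unit A]
  ring

omit [Fintype ι] [DecidableEq ι] [Fintype κ] [DecidableEq κ] in
lemma map_J {S : Type*} [CommRing S] (f : R →+* S) : (J ι κ R).map f = J ι κ S := by
  ext i j; simp

lemma map_beta {S : Type*} [CommRing S] (f : R →+* S) (A : Matrix ι ι R) :
    f (beta A) = beta (A.map f) := by
  unfold beta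
  rw [map_sub, f.map_det, f.map_det, RingHom.mapMatrix_apply, RingHom.mapMatrix_apply,
    Matrix.map_add f (map_add f), map_J]

/-- The key identity, for integer matrices. -/
lemma det_fromBlocks_J (A : Matrix ι ι ℤ) (B : Matrix κ κ ℤ) :
    (fromBlocks A (J ι κ ℤ) (J κ ι ℤ) B).det = A.det * B.det - beta A * beta B := by
  classical
  let A' : Matrix ι ι ℤ[X] := (X : ℤ[X]) • (1 : Matrix ι ι ℤ[X]) + A.map C
  let B' : Matrix κ κ ℤ[X] := B.map C
  let K := FractionRing ℤ[X]
  let φ : ℤ[X] →+* K := algebraMap ℤ[X] K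
  have hφ : Function.Injective φ := IsFractionRing.injective ℤ[X] K
  have hdet : A'.det ≠ 0 := by
    have h : A' = (-A).charmatrix := by
      simp only [A', charmatrix]
      ext i j
      simp [Matrix.scalar_apply, Matrix.diagonal_apply, Matrix.one_apply]
    rw [h]
    exact (Matrix.charpoly_monic (-A)).ne_zero
  have hunit : IsUnit (A'.map φ).det := by
    have : (A'.map φ).det = φ A'.det := by rw [φ.map_det]; rfl
    rw [this]
    exact isUnit_iff_ne_zero.mpr (fun h => hdet (hφ (by rw [h, map_zero])))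
  have : Invertible (A'.map φ) := Matrix.invertibleOfIsUnitDet _ hunit
  have key := det_fromBlocks_J_of_unit (A'.map φ) (B'.map φ)
  have e1 : fromBlocks (A'.map φ) (J ι κ K) (J κ ι K) (B'.map φ) =
      (fromBlocks A' (J ι κ ℤ[X]) (J κ ι ℤ[X]) B').map φ := by
    rw [fromBlocks_map, map_J, map_J]
  have e2 : φ ((fromBlocks A' (J ι κ ℤ[X]) (J κ ι ℤ[X]) B').det) =
      φ (A'.det * B'.det - beta A' * beta B') := by
    rw [map_sub, map_mul, map_mul, map_beta, map_beta, φ.map_det, φ.map_det, φ.map_det]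
    simp only [RingHom.mapMatrix_apply]
    rw [← e1, key]
  have e3 := hφ e2
  have e4 := congrArg (evalRingHom (0 : ℤ)) e3
  rw [map_sub, map_mul, map_mul, map_beta, map_beta, (evalRingHom (0:ℤ)).map_det,
    (evalRingHom (0:ℤ)).map_det, (evalRingHom (0:ℤ)).map_det] at e4
  simp only [RingHom.mapMatrix_apply, fromBlocks_map, map_J] at e4
  have hA : A'.map (evalRingHom (0:ℤ)) = A := by
    ext i j
    simp [A']
  have hB : B'.map (evalRingHom (0:ℤ)) = B := by
    ext i j
    simp [B']
  rw [hA, hB] at e4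
  exact e4

omit [Fintype κ] [DecidableEq κ] in
lemma one_sub_mul {τ : Type*} (f : κ → ι) (M : Matrix ι τ R) :
    (1 : Matrix ι ι R).submatrix f id * M = M.submatrix f id := by
  ext i j
  simp [Matrix.mul_apply, Matrix.one_apply]

omit [Fintype κ] [DecidableEq κ] in
lemma mul_one_sub {τ : Type*} (f : κ → ι) (M : Matrix τ ι R) :
    M * (1 : Matrix ι ι R).submatrix id f = M.submatrix id f := by
  ext i j
  simp [Matrix.mul_apply, Matrix.one_apply]

/-- Row and column elimination along a map `f : κ → ι`. -/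
lemma det_fromBlocks_elim (f : κ → ι) (A : Matrix ι ι R) (B : Matrix ι κ R) (C : Matrix κ ι R)
    (D : Matrix κ κ R) :
    (fromBlocks A B C D).det =
      (fromBlocks A (B - A.submatrix id f) (C - A.submatrix f id)
        (D - B.submatrix f id - (C - A.submatrix f id).submatrix id f)).det := by
  let P : Matrix κ ι R := (1 : Matrix ι ι R).submatrix f id
  let Q : Matrix ι κ R := (1 : Matrix ι ι R).submatrix id f
  have h1 : (fromBlocks (1 : Matrix ι ι R) 0 (-P) (1 : Matrix κ κ R)).det = 1 := by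
    rw [det_fromBlocks_zero₁₂]; simp
  have h2 : (fromBlocks (1 : Matrix ι ι R) (-Q) 0 (1 : Matrix κ κ R)).det = 1 := by
    rw [det_fromBlocks_zero₂₁]; simp
  have h3 : fromBlocks (1 : Matrix ι ι R) 0 (-P) (1 : Matrix κ κ R) * fromBlocks A B C D *
      fromBlocks (1 : Matrix ι ι R) (-Q) 0 (1 : Matrix κ κ R) =
      fromBlocks A (B - A.submatrix id f) (C - A.submatrix f id)
        (D - B.submatrix f id - (C - A.submatrix f id).submatrix id f) := by
    rw [fromBlocks_multiply, fromBlocks_multiply]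
    simp only [Matrix.one_mul, Matrix.zero_mul, Matrix.mul_one, Matrix.mul_zero, add_zero,
      Matrix.neg_mul, Matrix.mul_neg, P, Q, one_sub_mul, mul_one_sub]
    congr 1
    · abel
    · abel
    · ext i j
      simp
      ring
  rw [← h3, det_mul, det_mul, h1, h2]; ring

/-- Row elimination only. -/
lemma det_fromBlocks_elim_row (f : κ → ι) (c : R) (A : Matrix ι ι R) (B : Matrix ι κ R)
    (C : Matrix κ ι R) (D : Matrix κ κ R) :
    (fromBlocks A B C D).det =
      (fromBlocks A B (C + c • A.submatrix f id) (D + c • B.submatrix f id)).det := by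
  let P : Matrix κ ι R := (1 : Matrix ι ι R).submatrix f id
  have h1 : (fromBlocks (1 : Matrix ι ι R) 0 (c • P) (1 : Matrix κ κ R)).det = 1 := by
    rw [det_fromBlocks_zero₁₂]; simp
  have h3 : fromBlocks (1 : Matrix ι ι R) 0 (c • P) (1 : Matrix κ κ R) * fromBlocks A B C D =
      fromBlocks A B (C + c • A.submatrix f id) (D + c • B.submatrix f id) := by
    rw [fromBlocks_multiply]
    simp only [Matrix.one_mul, Matrix.zero_mul, add_zero, P, one_sub_mul, Matrix.smul_mul]
    congr 1
    · abel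
    · abel
  rw [← h3, det_mul, h1]; ring

lemma det_fromBlocks_symm_aux (A B : Matrix ι ι R) :
    (fromBlocks A B B A).det = (A + B).det * (A - B).det := by
  have h1 : (fromBlocks (1 : Matrix ι ι R) 1 0 (1 : Matrix ι ι R)).det = 1 := by
    rw [det_fromBlocks_zero₂₁]; simp
  have h2 : (fromBlocks (1 : Matrix ι ι R) (-1) 0 (1 : Matrix ι ι R)).det = 1 := by
    rw [det_fromBlocks_zero₂₁]; simp
  have h3 : fromBlocks (1 : Matrix ι ι R) 1 0 (1 : Matrix ι ι R) * fromBlocks A B B A *
      fromBlocks (1 : Matrix ι ι R) (-1) 0 (1 : Matrix ι ι R) =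
      fromBlocks (A + B) 0 B (A - B) := by
    rw [fromBlocks_multiply, fromBlocks_multiply]
    simp only [Matrix.one_mul, Matrix.zero_mul, Matrix.mul_one, Matrix.mul_zero, add_zero,
      Matrix.mul_neg, zero_add]
    congr 1
    · abel
    · abel
  have h4 : (fromBlocks A B B A).det = (fromBlocks (A + B) 0 B (A - B)).det := by
    rw [← h3, det_mul, det_mul, h1, h2]; ring
  rw [h4, det_fromBlocks_zero₁₂]

/-- Two-sided elimination with arbitrary multipliers. -/
lemma det_fromBlocks_elim_gen (P : Matrix κ ι R) (Q : Matrix ι κ R) (A : Matrix ι ι R)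
    (B : Matrix ι κ R) (C : Matrix κ ι R) (D : Matrix κ κ R) :
    (fromBlocks A B C D).det =
      (fromBlocks A (B - A * Q) (C - P * A) (D - P * B - (C - P * A) * Q)).det := by
  have h1 : (fromBlocks (1 : Matrix ι ι R) 0 (-P) (1 : Matrix κ κ R)).det = 1 := by
    rw [det_fromBlocks_zero₁₂]; simp
  have h2 : (fromBlocks (1 : Matrix ι ι R) (-Q) 0 (1 : Matrix κ κ R)).det = 1 := by
    rw [det_fromBlocks_zero₂₁]; simp
  have h3 : fromBlocks (1 : Matrix ι ι R) 0 (-P) (1 : Matrix κ κ R) * fromBlocks A B C D *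
      fromBlocks (1 : Matrix ι ι R) (-Q) 0 (1 : Matrix κ κ R) =
      fromBlocks A (B - A * Q) (C - P * A) (D - P * B - (C - P * A) * Q) := by
    rw [fromBlocks_multiply, fromBlocks_multiply]
    simp only [Matrix.one_mul, Matrix.zero_mul, Matrix.mul_one, Matrix.mul_zero, add_zero,
      Matrix.neg_mul, Matrix.mul_neg, Matrix.sub_mul, Matrix.add_mul]
    congr 1
    · abel
    · abel
    · abel
  rw [← h3, det_mul, det_mul, h1, h2]; ring

/-- The determinant of `[[0, 1], [1, 0]]`. -/
lemma det_swap : (fromBlocks (0 : Matrix ι ι R) (1 : Matrix ι ι R) (1 : Matrix ι ι R) 0).det =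
    (-1) ^ Fintype.card ι := by
  rw [det_fromBlocks_symm_aux]
  simp [det_neg]

/-- The bordered block determinant. -/
lemma det_bordered (y : R) (v : ι → R) (Z : Matrix ι ι R) (V : Matrix ι ι R) :
    (fromBlocks (y • (1 : Matrix Unit Unit R))
      (fromCols (0 : Matrix Unit ι R) (Matrix.of fun _ j => v j))
      (fromRows (0 : Matrix ι Unit R) (Matrix.of fun i _ => v i))
      (fromBlocks 0 Z Zᵀ V)).det = (-1) ^ Fintype.card ι * (y * Z.det ^ 2) := by
  let K : Matrix (Unit ⊕ (ι ⊕ ι)) (Unit ⊕ (ι ⊕ ι)) R :=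
    fromBlocks 1 0 0 (fromBlocks (0 : Matrix ι ι R) 1 1 0)
  have hK : K.det = (-1) ^ Fintype.card ι := by
    simp only [K]
    rw [det_fromBlocks_zero₁₂, det_swap, det_one, one_mul]
  have h3 : fromBlocks (y • (1 : Matrix Unit Unit R))
      (fromCols (0 : Matrix Unit ι R) (Matrix.of fun _ j => v j))
      (fromRows (0 : Matrix ι Unit R) (Matrix.of fun i _ => v i))
      (fromBlocks 0 Z Zᵀ V) * K =
      fromBlocks (y • (1 : Matrix Unit Unit R))
      (fromCols (Matrix.of fun _ j => v j) (0 : Matrix Unit ι R))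
      (fromRows (0 : Matrix ι Unit R) (Matrix.of fun i _ => v i))
      (fromBlocks Z 0 V Zᵀ) := by
    simp only [K]
    rw [fromBlocks_multiply, fromBlocks_multiply]
    simp only [Matrix.mul_one, Matrix.mul_zero, add_zero, zero_add, fromCols_mul_fromBlocks]
  have h4 : (fromBlocks (y • (1 : Matrix Unit Unit R))
      (fromCols (Matrix.of fun _ j => v j) (0 : Matrix Unit ι R))
      (fromRows (0 : Matrix ι Unit R) (Matrix.of fun i _ => v i))
      (fromBlocks Z 0 V Zᵀ)).det = y * Z.det ^ 2 := by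
    rw [← det_submatrix_equiv_self (Equiv.sumAssoc Unit ι ι)]
    have h5 : (fromBlocks (y • (1 : Matrix Unit Unit R))
      (fromCols (Matrix.of fun _ j => v j) (0 : Matrix Unit ι R))
      (fromRows (0 : Matrix ι Unit R) (Matrix.of fun i _ => v i))
      (fromBlocks Z 0 V Zᵀ)).submatrix (Equiv.sumAssoc Unit ι ι) (Equiv.sumAssoc Unit ι ι) =
      fromBlocks (fromBlocks (y • (1 : Matrix Unit Unit R)) (Matrix.of fun _ j => v j) 0 Z) 0
        (fromCols (Matrix.of fun i _ => v i) V) Zᵀ := by
      ext i j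
      rcases i with (i | i) | i <;> rcases j with (j | j) | j <;> simp
    rw [h5, det_fromBlocks_zero₁₂, det_fromBlocks_zero₂₁, det_transpose, det_smul]
    simp
    ring
  have h6 := congrArg Matrix.det h3
  rw [det_mul, hK, h4] at h6
  have h7 : ((-1 : R) ^ Fintype.card ι) * ((-1 : R) ^ Fintype.card ι) = 1 := by
    rw [← pow_add, ← two_mul, pow_mul]; simp
  calc _ = _ * (((-1 : R) ^ Fintype.card ι) * ((-1 : R) ^ Fintype.card ι)) := by rw [h7, mul_one]
    _ = _ := by rw [← mul_assoc, h6]; ring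

end Pool.Agent.V11309.Hankel
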