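import Mathlib
import Pool.Agent.V11309.Hankel.Lin

/-! Recurrences for the Hankel determinants of the binary digit sum. -/

namespace Pool.Agent.V11309.Hankel

open Matrix

/-- The number of ones in the binary expansion, as an integer. -/
def s (m : ℕ) : ℤ := ((Nat.digits 2 m).count 1 : ℕ)

lemma s_zero : s 0 = 0 := by simp [s]

lemma s_two_mul (m : ℕ) : s (2 * m) = s m := by
  rcases Nat.eq_zero_or_pos m with rfl | hm
  · simp
  · unfold s
    rw [Nat.digits_def' (by norm_num) (by omega)]
    have h1 : 2 * m % 2 = 0 := by omega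
    have h2 : 2 * m / 2 = m := by omega
    rw [h1, h2, List.count_cons]
    simp

lemma s_two_mul_add_one (m : ℕ) : s (2 * m + 1) = s m + 1 := by
  unfold s
  rw [Nat.digits_def' (by norm_num) (by omega)]
  have h1 : (2 * m + 1) % 2 = 1 := by omega
  have h2 : (2 * m + 1) / 2 = m := by omega
  rw [h1, h2, List.count_cons]
  simp

/-- First difference. -/
def t (m : ℕ) : ℤ := s (m + 1) - s m

/-- Second difference. -/
def u (m : ℕ) : ℤ := t (m + 1) - t m

lemma t_two_mul (m : ℕ) : t (2 * m) = 1 := by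
  rw [t, s_two_mul_add_one, s_two_mul]; ring

lemma t_two_mul_add_one (m : ℕ) : t (2 * m + 1) = t m - 1 := by
  rw [t, show 2 * m + 1 + 1 = 2 * (m + 1) by ring, s_two_mul_add_one, s_two_mul, t]; ring

lemma u_two_mul (m : ℕ) : u (2 * m) = t m - 2 := by
  rw [u, t_two_mul, t_two_mul_add_one]; ring

lemma u_two_mul_add_one (m : ℕ) : u (2 * m + 1) = 2 - t m := by
  rw [u, show 2 * m + 1 + 1 = 2 * (m + 1) by ring, t_two_mul, t_two_mul_add_one]; ring

/-- Hankel matrix of a sequence. -/
def hk (w : ℕ → ℤ) (n : ℕ) : Matrix (Fin n) (Fin n) ℤ := Matrix.of fun i j => w (i + j)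

@[simp] lemma hk_apply (w : ℕ → ℤ) (n : ℕ) (i j : Fin n) : hk w n i j = w (i + j) := rfl

/-- Even/odd splitting, even size. -/
def f0 (n : ℕ) : Fin n ⊕ Fin n → Fin (2 * n) :=
  Sum.elim (fun a => ⟨2 * a, by omega⟩) (fun a => ⟨2 * a + 1, by omega⟩)

/-- Even/odd splitting, odd size. -/
def f1 (n : ℕ) : Fin (n + 1) ⊕ Fin n → Fin (2 * n + 1) :=
  Sum.elim (fun a => ⟨2 * a, by omega⟩) (fun a => ⟨2 * a + 1, by omega⟩)

/-- Zero / positive even / odd splitting. -/
def f2 (n : ℕ) : Unit ⊕ (Fin n ⊕ Fin n) → Fin (2 * n + 1) :=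
  Sum.elim (fun _ => ⟨0, by omega⟩)
    (Sum.elim (fun a => ⟨2 * a + 2, by omega⟩) (fun a => ⟨2 * a + 1, by omega⟩))

lemma f0_bij (n : ℕ) : Function.Bijective (f0 n) := by
  rw [Fintype.bijective_iff_injective_and_card]
  constructor
  · intro x y h
    have h' := congrArg Fin.val h
    rcases x with x | x <;> rcases y with y | y <;> simp [f0] at h' ⊢ <;>
      first
      | (apply Fin.ext; omega)
      | omega
  · simp; ring

lemma f1_bij (n : ℕ) : Function.Bijective (f1 n) := by
  rw [Fintype.bijective_iff_injective_and_card]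
  constructor
  · intro x y h
    have h' := congrArg Fin.val h
    rcases x with x | x <;> rcases y with y | y <;> simp [f1] at h' ⊢ <;>
      first
      | (apply Fin.ext; omega)
      | omega
  · simp; ring

lemma f2_bij (n : ℕ) : Function.Bijective (f2 n) := by
  rw [Fintype.bijective_iff_injective_and_card]
  constructor
  · intro x y h
    have h' := congrArg Fin.val h
    rcases x with x | x | x <;> rcases y with y | y | y <;> simp [f2] at h' ⊢ <;>
      first
      | (apply Fin.ext; omega)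
      | omega
  · simp; ring

lemma smul_J_apply {ι κ : Type*} (x : ℤ) (i : ι) (j : κ) : (x • J ι κ ℤ) i j = x := by
  rw [Matrix.smul_apply, J_apply, smul_eq_mul, mul_one]

/-- The determinant `det (W_{2n} + x J)`, split into blocks. -/
lemma det_hk_even (n : ℕ) (w : ℕ → ℤ) (x : ℤ) :
    (hk w (2 * n) + x • J _ _ ℤ).det =
      (fromBlocks (hk (fun m => w (2 * m)) n + x • J _ _ ℤ)
        (hk (fun m => w (2 * m + 1)) n + x • J _ _ ℤ)
        (hk (fun m => w (2 * m + 1)) n + x • J _ _ ℤ)
        (hk (fun m => w (2 * m + 2)) n + x • J _ _ ℤ)).det := by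
  rw [← det_submatrix_equiv_self (Equiv.ofBijective _ (f0_bij n))]
  congr 1
  ext i j
  rcases i with i | i <;> rcases j with j | j <;>
    simp only [f0, Matrix.submatrix_apply, Equiv.ofBijective_apply, Sum.elim_inl, Sum.elim_inr,
      Matrix.add_apply, hk_apply, smul_J_apply, fromBlocks_apply₁₁, fromBlocks_apply₁₂,
      fromBlocks_apply₂₁, fromBlocks_apply₂₂] <;> congr 2 <;> ring

/-- Rectangular Hankel matrix. -/
def hr (w : ℕ → ℤ) (p q : ℕ) : Matrix (Fin p) (Fin q) ℤ := Matrix.of fun i j => w (i + j)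

@[simp] lemma hr_apply (w : ℕ → ℤ) (p q : ℕ) (i : Fin p) (j : Fin q) :
    hr w p q i j = w (i + j) := rfl

/-- The determinant `det (W_{2n+1} + x J)`, split into blocks. -/
lemma det_hk_odd (n : ℕ) (w : ℕ → ℤ) (x : ℤ) :
    (hk w (2 * n + 1) + x • J _ _ ℤ).det =
      (fromBlocks (hk (fun m => w (2 * m)) (n + 1) + x • J _ _ ℤ)
        (hr (fun m => w (2 * m + 1)) (n + 1) n + x • J _ _ ℤ)
        (hr (fun m => w (2 * m + 1)) n (n + 1) + x • J _ _ ℤ)
        (hk (fun m => w (2 * m + 2)) n + x • J _ _ ℤ)).det := by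
  rw [← det_submatrix_equiv_self (Equiv.ofBijective _ (f1_bij n))]
  congr 1
  ext i j
  rcases i with i | i <;> rcases j with j | j <;>
    simp only [f1, Matrix.submatrix_apply, Equiv.ofBijective_apply, Sum.elim_inl, Sum.elim_inr,
      Matrix.add_apply, hk_apply, hr_apply, smul_J_apply, fromBlocks_apply₁₁, fromBlocks_apply₁₂,
      fromBlocks_apply₂₁, fromBlocks_apply₂₂] <;> congr 2 <;> ring

/-- Even case for the digit sum. -/
lemma S_even (n : ℕ) (x : ℤ) :
    (hk s (2 * n) + x • J _ _ ℤ).det =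
      ((hk s n).det + x * beta (hk s n)) * ((hk t n).det - 2 * beta (hk t n)) -
        beta (hk s n) * beta (hk t n) := by
  rw [det_hk_even, det_fromBlocks_elim id]
  have h : (fromBlocks (hk (fun m => s (2 * m)) n + x • J _ _ ℤ)
        (hk (fun m => s (2 * m + 1)) n + x • J _ _ ℤ -
          (hk (fun m => s (2 * m)) n + x • J _ _ ℤ).submatrix id id)
        (hk (fun m => s (2 * m + 1)) n + x • J _ _ ℤ -
          (hk (fun m => s (2 * m)) n + x • J _ _ ℤ).submatrix id id)
        (hk (fun m => s (2 * m + 2)) n + x • J _ _ ℤ -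
          (hk (fun m => s (2 * m + 1)) n + x • J _ _ ℤ).submatrix id id -
          (hk (fun m => s (2 * m + 1)) n + x • J _ _ ℤ -
          (hk (fun m => s (2 * m)) n + x • J _ _ ℤ).submatrix id id).submatrix id id)) =
      fromBlocks (hk s n + x • J _ _ ℤ) (J _ _ ℤ) (J _ _ ℤ) (hk t n + (-2 : ℤ) • J _ _ ℤ) := by
    ext i j
    rcases i with i | i <;> rcases j with j | j <;>
      simp only [Matrix.submatrix_apply, Matrix.add_apply, Matrix.sub_apply, hk_apply,
        smul_J_apply, fromBlocks_apply₁₁, fromBlocks_apply₁₂, id,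
        fromBlocks_apply₂₁, fromBlocks_apply₂₂, s_two_mul, s_two_mul_add_one, J_apply,
        show ∀ m, 2 * m + 2 = 2 * (m + 1) from fun m => by ring, t] <;> ring
  rw [h, det_fromBlocks_J, beta_add_smul_J, beta_add_smul_J, det_add_smul_J, det_add_smul_J]
  ring

/-- Odd case for the digit sum. -/
lemma S_odd (n : ℕ) (x : ℤ) :
    (hk s (2 * n + 1) + x • J _ _ ℤ).det =
      ((hk s (n + 1)).det + x * beta (hk s (n + 1))) * ((hk t n).det - 2 * beta (hk t n)) -
        beta (hk s (n + 1)) * beta (hk t n) := by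
  rw [det_hk_odd, det_fromBlocks_elim Fin.castSucc]
  have h : (fromBlocks (hk (fun m => s (2 * m)) (n + 1) + x • J _ _ ℤ)
        (hr (fun m => s (2 * m + 1)) (n + 1) n + x • J _ _ ℤ -
          (hk (fun m => s (2 * m)) (n + 1) + x • J _ _ ℤ).submatrix id Fin.castSucc)
        (hr (fun m => s (2 * m + 1)) n (n + 1) + x • J _ _ ℤ -
          (hk (fun m => s (2 * m)) (n + 1) + x • J _ _ ℤ).submatrix Fin.castSucc id)
        (hk (fun m => s (2 * m + 2)) n + x • J _ _ ℤ -
          (hr (fun m => s (2 * m + 1)) (n + 1) n + x • J _ _ ℤ).submatrix Fin.castSucc id -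
          (hr (fun m => s (2 * m + 1)) n (n + 1) + x • J _ _ ℤ -
          (hk (fun m => s (2 * m)) (n + 1) + x • J _ _ ℤ).submatrix Fin.castSucc id).submatrix
            id Fin.castSucc)) =
      fromBlocks (hk s (n + 1) + x • J _ _ ℤ) (J _ _ ℤ) (J _ _ ℤ)
        (hk t n + (-2 : ℤ) • J _ _ ℤ) := by
    ext i j
    rcases i with i | i <;> rcases j with j | j <;>
      simp only [Matrix.submatrix_apply, Matrix.add_apply, Matrix.sub_apply, hk_apply, hr_apply,
        smul_J_apply, fromBlocks_apply₁₁, fromBlocks_apply₁₂, id, Fin.val_castSucc,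
        fromBlocks_apply₂₁, fromBlocks_apply₂₂, s_two_mul, s_two_mul_add_one, J_apply,
        show ∀ m, 2 * m + 2 = 2 * (m + 1) from fun m => by ring, t] <;> ring
  rw [h, det_fromBlocks_J, beta_add_smul_J, beta_add_smul_J, det_add_smul_J, det_add_smul_J]
  ring

/-- Even case for the first differences. -/
lemma T_even (n : ℕ) (x : ℤ) :
    (hk t (2 * n) + x • J _ _ ℤ).det =
      (-1) ^ n * (((hk t n).det + 2 * x * beta (hk t n)) *
        ((hk t n).det - 2 * beta (hk t n))) := by
  rw [det_hk_even]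
  have h : (fromBlocks (hk (fun m => t (2 * m)) n + x • J _ _ ℤ)
        (hk (fun m => t (2 * m + 1)) n + x • J _ _ ℤ)
        (hk (fun m => t (2 * m + 1)) n + x • J _ _ ℤ)
        (hk (fun m => t (2 * m + 2)) n + x • J _ _ ℤ)) =
      fromBlocks ((1 + x) • J _ _ ℤ) (hk t n + (x - 1) • J _ _ ℤ)
        (hk t n + (x - 1) • J _ _ ℤ) ((1 + x) • J _ _ ℤ) := by
    ext i j
    rcases i with i | i <;> rcases j with j | j <;>
      simp only [Matrix.add_apply, hk_apply,
        smul_J_apply, fromBlocks_apply₁₁, fromBlocks_apply₁₂,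
        fromBlocks_apply₂₁, fromBlocks_apply₂₂, t_two_mul, t_two_mul_add_one,
        show ∀ m, 2 * m + 2 = 2 * (m + 1) from fun m => by ring] <;> ring
  rw [h, det_fromBlocks_symm_aux]
  have h1 : (1 + x) • J (Fin n) (Fin n) ℤ + (hk t n + (x - 1) • J _ _ ℤ) =
      hk t n + (2 * x) • J _ _ ℤ := by
    ext i j
    simp only [Matrix.add_apply, hk_apply, smul_J_apply]; ring
  have h2 : (1 + x) • J (Fin n) (Fin n) ℤ - (hk t n + (x - 1) • J _ _ ℤ) =
      -(hk t n + (-2 : ℤ) • J _ _ ℤ) := by
    ext i j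
    simp only [Matrix.add_apply, Matrix.sub_apply, Matrix.neg_apply, hk_apply, smul_J_apply]; ring
  rw [h1, h2, det_neg, det_add_smul_J, det_add_smul_J, Fintype.card_fin]
  ring

/-- Second differences, even case. -/
lemma U_even (n : ℕ) :
    (hk u (2 * n)).det = (hk u n).det * ((hk t n).det - 2 * beta (hk t n)) := by
  have h0 := det_hk_even n u 0
  simp only [zero_smul, add_zero] at h0
  rw [h0, det_fromBlocks_elim_row id 1]
  have h : (fromBlocks (hk (fun m => u (2 * m)) n) (hk (fun m => u (2 * m + 1)) n)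
        (hk (fun m => u (2 * m + 1)) n + (1 : ℤ) • (hk (fun m => u (2 * m)) n).submatrix id id)
        (hk (fun m => u (2 * m + 2)) n +
          (1 : ℤ) • (hk (fun m => u (2 * m + 1)) n).submatrix id id)) =
      fromBlocks (hk t n + (-2 : ℤ) • J _ _ ℤ) (hk (fun m => u (2 * m + 1)) n) 0 (hk u n) := by
    ext i j
    rcases i with i | i <;> rcases j with j | j <;>
      simp only [Matrix.submatrix_apply, Matrix.add_apply, hk_apply, one_smul,
        smul_J_apply, fromBlocks_apply₁₁, fromBlocks_apply₁₂, id, Matrix.zero_apply,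
        fromBlocks_apply₂₁, fromBlocks_apply₂₂, u_two_mul, u_two_mul_add_one,
        show ∀ m, 2 * m + 2 = 2 * (m + 1) from fun m => by ring] <;>
      (try simp only [u]) <;> ring
  rw [h, det_fromBlocks_zero₂₁, det_add_smul_J]
  ring

/-- Second differences, odd case. -/
lemma U_odd (n : ℕ) :
    (hk u (2 * n + 1)).det =
      (hk u n).det * ((hk t (n + 1)).det - 2 * beta (hk t (n + 1))) := by
  have h0 := det_hk_odd n u 0
  simp only [zero_smul, add_zero] at h0
  rw [h0, det_fromBlocks_elim_row Fin.castSucc 1]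
  have h : (fromBlocks (hk (fun m => u (2 * m)) (n + 1)) (hr (fun m => u (2 * m + 1)) (n + 1) n)
        (hr (fun m => u (2 * m + 1)) n (n + 1) +
          (1 : ℤ) • (hk (fun m => u (2 * m)) (n + 1)).submatrix Fin.castSucc id)
        (hk (fun m => u (2 * m + 2)) n +
          (1 : ℤ) • (hr (fun m => u (2 * m + 1)) (n + 1) n).submatrix Fin.castSucc id)) =
      fromBlocks (hk t (n + 1) + (-2 : ℤ) • J _ _ ℤ)
        (hr (fun m => u (2 * m + 1)) (n + 1) n) 0 (hk u n) := by
    ext i j
    rcases i with i | i <;> rcases j with j | j <;>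
      simp only [Matrix.submatrix_apply, Matrix.add_apply, hk_apply, hr_apply, one_smul,
        smul_J_apply, fromBlocks_apply₁₁, fromBlocks_apply₁₂, id, Matrix.zero_apply,
        fromBlocks_apply₂₁, fromBlocks_apply₂₂, u_two_mul, u_two_mul_add_one,
        Fin.val_castSucc,
        show ∀ m, 2 * m + 2 = 2 * (m + 1) from fun m => by ring] <;>
      (try simp only [u]) <;> ring
  rw [h, det_fromBlocks_zero₂₁, det_add_smul_J]
  ring

/-- The matrix of differences with row zero has the same determinant as the Hankel matrix of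
second differences. -/
lemma det_Z (n : ℕ) :
    (Matrix.of fun (i j : Fin n) => t (i + 1 + j) - t j).det = (hk u n).det := by
  cases n with
  | zero => simp
  | succ n =>
    apply det_eq_of_forall_row_eq_smul_add_pred (fun _ => 1)
    · intro j
      simp [u, add_comm]
    · intro i j
      simp only [Matrix.of_apply, hk_apply, Fin.val_succ, Fin.val_castSucc, u]
      rw [show (i : ℕ) + 1 + 1 + j = i + 1 + j + 1 by ring]
      ring

/-- Odd case for the first differences. -/
lemma T_odd (n : ℕ) (x : ℤ) :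
    (hk t (2 * n + 1) + x • J _ _ ℤ).det = (-1) ^ n * ((1 + x) * (hk u n).det ^ 2) := by
  rw [← det_submatrix_equiv_self (Equiv.ofBijective _ (f2_bij n))]
  have h : (hk t (2 * n + 1) + x • J _ _ ℤ).submatrix (Equiv.ofBijective _ (f2_bij n))
      (Equiv.ofBijective _ (f2_bij n)) =
      fromBlocks ((1 + x) • (1 : Matrix Unit Unit ℤ))
        (fromCols ((1 + x) • J Unit (Fin n) ℤ) (Matrix.of fun _ (j : Fin n) => t j + (x - 1)))
        (fromRows ((1 + x) • J (Fin n) Unit ℤ) (Matrix.of fun (i : Fin n) _ => t i + (x - 1)))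
        (fromBlocks ((1 + x) • J (Fin n) (Fin n) ℤ)
          (Matrix.of fun (i j : Fin n) => t (i + 1 + j) + (x - 1))
          (Matrix.of fun (i j : Fin n) => t (i + 1 + j) + (x - 1))
          ((1 + x) • J (Fin n) (Fin n) ℤ)) := by
    ext i j
    rcases i with i | i | i <;> rcases j with j | j | j <;>
      simp only [f2, Matrix.submatrix_apply, Equiv.ofBijective_apply, Sum.elim_inl, Sum.elim_inr,
        Matrix.add_apply, hk_apply, J_apply, fromBlocks_apply₁₁, fromBlocks_apply₁₂,
        fromBlocks_apply₂₁, fromBlocks_apply₂₂, fromCols_apply_inl, fromCols_apply_inr,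
        fromRows_apply_inl, fromRows_apply_inr, Matrix.of_apply, Matrix.smul_apply,
        smul_eq_mul, mul_one, Matrix.one_apply_eq]
    · have := t_two_mul 0
      simpa using this
    · rw [show 0 + (2 * (j : ℕ) + 2) = 2 * (j + 1) by ring, t_two_mul]
    · rw [show 0 + (2 * (j : ℕ) + 1) = 2 * j + 1 by ring, t_two_mul_add_one]; ring
    · rw [show (2 * (i : ℕ) + 2) + 0 = 2 * (i + 1) by ring, t_two_mul]
    · rw [show (2 * (i : ℕ) + 2) + (2 * (j : ℕ) + 2) = 2 * (i + j + 2) by ring, t_two_mul]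
    · rw [show (2 * (i : ℕ) + 2) + (2 * (j : ℕ) + 1) = 2 * (i + 1 + j) + 1 by ring,
        t_two_mul_add_one]; ring
    · rw [show (2 * (i : ℕ) + 1) + 0 = 2 * i + 1 by ring, t_two_mul_add_one]; ring
    · rw [show (2 * (i : ℕ) + 1) + (2 * (j : ℕ) + 2) = 2 * (i + 1 + j) + 1 by ring,
        t_two_mul_add_one]; ring
    · rw [show (2 * (i : ℕ) + 1) + (2 * (j : ℕ) + 1) = 2 * (i + j + 1) by ring, t_two_mul]
  rw [h, det_fromBlocks_elim_gen (fromRows (J (Fin n) Unit ℤ) 0) (fromCols (J Unit (Fin n) ℤ) 0)]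
  have key := det_bordered (1 + x) (fun i : Fin n => t i + (x - 1))
    (Matrix.of fun (i j : Fin n) => t (i + 1 + j) - t j) ((1 + x) • J (Fin n) (Fin n) ℤ)
  rw [det_Z, Fintype.card_fin] at key
  rw [← key]
  congr 1
  ext i j
  rcases i with i | i | i <;> rcases j with j | j | j <;>
    simp only [Matrix.sub_apply, fromBlocks_apply₁₁, fromBlocks_apply₁₂,
        fromBlocks_apply₂₁, fromBlocks_apply₂₂, fromCols_apply_inl, fromCols_apply_inr,
        fromRows_apply_inl, fromRows_apply_inr, Matrix.of_apply, Matrix.smul_apply,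
        Matrix.mul_apply, Matrix.zero_apply, Finset.univ_unique, Finset.sum_singleton,
        Matrix.transpose_apply, J_apply, smul_eq_mul, Matrix.one_apply_eq] <;>
    first
    | ring1
    | ring_nf

/-- The Hankel determinant. -/
def H (n : ℕ) : ℤ := (hk s n).det

/-- Sum of the entries of the adjugate of the Hankel matrix. -/
def h (n : ℕ) : ℤ := beta (hk s n)

/-- Hankel determinant of the first differences. -/
def d (n : ℕ) : ℤ := (hk t n).det

/-- Adjugate sum for the first differences. -/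
def e (n : ℕ) : ℤ := beta (hk t n)

/-- Hankel determinant of the second differences. -/
def g (n : ℕ) : ℤ := (hk u n).det

lemma H_two_mul (n : ℕ) : H (2 * n) = H n * (d n - 2 * e n) - h n * e n := by
  have h0 := S_even n 0
  simp only [zero_smul, add_zero, zero_mul] at h0
  exact h0

lemma h_two_mul (n : ℕ) : h (2 * n) = h n * (d n - 2 * e n) := by
  have h0 := S_even n 0
  have h1 := S_even n 1
  simp only [zero_smul, add_zero, zero_mul, one_smul, one_mul] at h0 h1
  have hb : h (2 * n) = (hk s (2 * n) + J _ _ ℤ).det - (hk s (2 * n)).det := rfl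
  rw [hb, h1, h0]
  unfold h d e
  ring

lemma H_two_mul_add_one (n : ℕ) :
    H (2 * n + 1) = H (n + 1) * (d n - 2 * e n) - h (n + 1) * e n := by
  have h0 := S_odd n 0
  simp only [zero_smul, add_zero, zero_mul] at h0
  exact h0

lemma h_two_mul_add_one (n : ℕ) : h (2 * n + 1) = h (n + 1) * (d n - 2 * e n) := by
  have h0 := S_odd n 0
  have h1 := S_odd n 1
  simp only [zero_smul, add_zero, zero_mul, one_smul, one_mul] at h0 h1
  have hb : h (2 * n + 1) = (hk s (2 * n + 1) + J _ _ ℤ).det - (hk s (2 * n + 1)).det := rfl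
  rw [hb, h1, h0]
  unfold h d e
  ring

lemma d_two_mul (n : ℕ) : d (2 * n) = (-1) ^ n * (d n * (d n - 2 * e n)) := by
  have h0 := T_even n 0
  simp only [zero_smul, add_zero, zero_mul, mul_zero] at h0
  exact h0

lemma e_two_mul (n : ℕ) : e (2 * n) = (-1) ^ n * (2 * e n * (d n - 2 * e n)) := by
  have h0 := T_even n 0
  have h1 := T_even n 1
  simp only [zero_smul, add_zero, zero_mul, one_smul, mul_one, mul_zero] at h0 h1
  have hb : e (2 * n) = (hk t (2 * n) + J _ _ ℤ).det - (hk t (2 * n)).det := rfl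
  rw [hb, h1, h0]
  unfold d e
  ring

lemma d_two_mul_add_one (n : ℕ) : d (2 * n + 1) = (-1) ^ n * g n ^ 2 := by
  have h0 := T_odd n 0
  simp only [zero_smul, add_zero, one_mul] at h0
  exact h0

lemma e_two_mul_add_one (n : ℕ) : e (2 * n + 1) = (-1) ^ n * g n ^ 2 := by
  have h0 := T_odd n 0
  have h1 := T_odd n 1
  simp only [zero_smul, add_zero, one_mul, one_smul] at h0 h1
  unfold e beta
  rw [h1, h0]
  unfold g
  ring

lemma g_two_mul (n : ℕ) : g (2 * n) = g n * (d n - 2 * e n) := U_even n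

lemma g_two_mul_add_one (n : ℕ) : g (2 * n + 1) = g n * (d (n + 1) - 2 * e (n + 1)) := U_odd n

end Pool.Agent.V11309.Hankel
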