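import Mathlib
import Pool.Agent.V11309.Hankel.Rec

/-! Automaticity from a finite state recurrence. -/

namespace Pool.Agent.V11309.Hankel

/-- If `V (2 n)` and `V (2 n + 1)` are functions of `V n` in a finite type, and `V 0` is fixed by
reading a zero, then reading the binary digits of `n` (most significant first) ends in `V n`. -/
lemma foldl_digits {Q : Type*} (V : ℕ → Q) (φ : Q → ℕ → Q)
    (h0 : ∀ n, φ (V n) 0 = V (2 * n)) (h1 : ∀ n, φ (V n) 1 = V (2 * n + 1)) (n : ℕ) :
    (Nat.digits 2 n).reverse.foldl φ (V 0) = V n := by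
  induction n using Nat.strong_induction_on with
  | _ n ih =>
    rcases Nat.eq_zero_or_pos n with rfl | hn
    · simp
    · rw [Nat.digits_def' (by norm_num) hn, List.reverse_cons, List.foldl_append, ih _ (by omega)]
      simp only [List.foldl_cons, List.foldl_nil]
      rcases Nat.mod_two_eq_zero_or_one n with h | h
      · rw [h, h0]; congr 1; omega
      · rw [h, h1]; congr 1; omega

lemma kernel_finite {Q α : Type*} [Finite Q] (V : ℕ → Q) (φ : Q → ℕ → Q) (out : Q → α)
    (a : ℕ → α) (ha : ∀ n, a n = out (V n))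
    (h0 : ∀ n, φ (V n) 0 = V (2 * n)) (h1 : ∀ n, φ (V n) 1 = V (2 * n + 1)) :
    {b : ℕ → α | ∃ e r : ℕ, r < 2 ^ e ∧ b = fun n => a (2 ^ e * n + r)}.Finite := by
  have key : ∀ e r : ℕ, r < 2 ^ e → ∃ ψ : Q → Q, ∀ n, V (2 ^ e * n + r) = ψ (V n) := by
    intro e
    induction e with
    | zero =>
      intro r hr
      refine ⟨id, fun n => ?_⟩
      have : r = 0 := by simpa using hr
      simp [this]
    | succ e ih =>
      intro r hr
      obtain ⟨ψ, hψ⟩ := ih (r / 2) (by rw [pow_succ] at hr; omega)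
      refine ⟨fun q => φ (ψ q) (r % 2), fun n => ?_⟩
      change _ = φ (ψ (V n)) (r % 2)
      rw [← hψ]
      rcases Nat.mod_two_eq_zero_or_one r with h | h
      · rw [h, h0]; congr 1; rw [pow_succ]
        have : r = 2 * (r / 2) := by omega
        calc 2 ^ e * 2 * n + r = 2 ^ e * 2 * n + 2 * (r / 2) := by rw [← this]
          _ = _ := by ring
      · rw [h, h1]; congr 1; rw [pow_succ]
        have : r = 2 * (r / 2) + 1 := by omega
        calc 2 ^ e * 2 * n + r = 2 ^ e * 2 * n + (2 * (r / 2) + 1) := by rw [← this]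
          _ = _ := by ring
  refine (Set.finite_range (fun ψ : Q → Q => fun n => out (ψ (V n)))).subset ?_
  rintro b ⟨e, r, hr, rfl⟩
  obtain ⟨ψ, hψ⟩ := key e r hr
  exact ⟨ψ, by funext n; rw [ha, hψ]⟩

/-- The five values modulo `m`. -/
abbrev Five (m : ℕ) := ZMod m × ZMod m × ZMod m × ZMod m × ZMod m

/-- The state space. -/
abbrev St (m : ℕ) := Five m × Five m × ZMod m

/-- The values at `n`. -/
def W (m n : ℕ) : Five m := ((H n : ZMod m), (h n : ZMod m), (d n : ZMod m), (e n : ZMod m),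
  (g n : ZMod m))

/-- The state at `n`. -/
def V (m n : ℕ) : St m := (W m n, W m (n + 1), (-1) ^ n)

/-- The transition. -/
def φ (m : ℕ) : St m → ℕ → St m
  | ((A, a, D, E, G), (A', a', D', E', G'), σ), b =>
    if b = 0 then
      ((A * (D - 2 * E) - a * E, a * (D - 2 * E), σ * (D * (D - 2 * E)),
        σ * (2 * E * (D - 2 * E)), G * (D - 2 * E)),
       (A' * (D - 2 * E) - a' * E, a' * (D - 2 * E), σ * G ^ 2, σ * G ^ 2,
        G * (D' - 2 * E')), 1)
    else
      ((A' * (D - 2 * E) - a' * E, a' * (D - 2 * E), σ * G ^ 2, σ * G ^ 2,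
        G * (D' - 2 * E')),
       (A' * (D' - 2 * E') - a' * E', a' * (D' - 2 * E'), -σ * (D' * (D' - 2 * E')),
        -σ * (2 * E' * (D' - 2 * E')), G' * (D' - 2 * E')), -1)

lemma φ_zero (m n : ℕ) : φ m (V m n) 0 = V m (2 * n) := by
  simp only [V, W, φ, if_true, H_two_mul, h_two_mul, d_two_mul, e_two_mul, g_two_mul,
    H_two_mul_add_one, h_two_mul_add_one, d_two_mul_add_one, e_two_mul_add_one,
    g_two_mul_add_one]
  push_cast
  rw [show (-1 : ZMod m) ^ (2 * n) = 1 by rw [pow_mul]; simp]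

lemma φ_one (m n : ℕ) : φ m (V m n) 1 = V m (2 * n + 1) := by
  have e1 : 2 * n + 1 + 1 = 2 * (n + 1) := by ring
  simp only [V, W, φ, one_ne_zero, if_false, e1, H_two_mul, h_two_mul, d_two_mul, e_two_mul,
    g_two_mul, H_two_mul_add_one, h_two_mul_add_one, d_two_mul_add_one, e_two_mul_add_one,
    g_two_mul_add_one]
  push_cast
  rw [show (-1 : ZMod m) ^ (2 * n + 1) = -1 by rw [pow_succ, pow_mul]; simp,
    show (-1 : ZMod m) ^ (n + 1) = -(-1) ^ n by rw [pow_succ]; ring]

lemma H_mod (m : ℕ) (hm : 1 ≤ m) (n : ℕ) :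
    H (n + 1) % (m : ℤ) = (((V m n).2.1.1).val : ℤ) := by
  have : NeZero m := ⟨by omega⟩
  simp only [V, W]
  rw [ZMod.val_intCast]

end Pool.Agent.V11309.Hankel
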